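import Mathlib
import Pool.Agent.H94.Rk2

set_option autoImplicit false
open scoped ComplexOrder

namespace Pool.Agent.Results.MP_395ab6_co.Fails

theorem result : ∃ A : Matrix (Fin 12) (Fin 12) ℂ, A.PosSemidef ∧
    A.permanent.re < ∑ k : Fin 11, ‖A 0 k.succ‖ ^ 2 *
      (A.submatrix (fun a : Fin 10 => (k.succAbove a).succ)
        (fun a : Fin 10 => (k.succAbove a).succ)).permanent.re :=
  Pool.Agent.H94.Rk2.main

end Pool.Agent.Results.MP_395ab6_co.Fails
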